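import Pool.Agent.H26.ZQ.Defs
import Pool.Agent.H20.LIM.Targets

/-!
# Lower bound for `f` in a strip, module LB
-/

set_option autoImplicit false

open Complex MeasureTheory Set Filter Topology Metric

namespace Pool.Agent.H65.ZQ

open Pool.Agent.H26.ZQ Pool.Agent.H26.ML

theorem pf_lb (hFAC : Pool.Agent.H20.LIM.T_FAC) : T_LB := by
  intro E σ k f hE hσ hf
  obtain ⟨s, hs⟩ : ∃ s : ℝ, s = max σ 10 := ⟨_, rfl⟩
  have hs10 : 10 ≤ s := hs ▸ le_max_right _ _
  have hsσ : σ ≤ s := hs ▸ le_max_left _ _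
  have hlE : 0 ≤ Real.log E := Real.log_nonneg hE
  have hE0 : 0 < E := by linarith
  obtain ⟨r1, hr1⟩ : ∃ r1 : ℝ, r1 = s + 1 / 4 := ⟨_, rfl⟩
  have hr1p : 0 < r1 := by rw [hr1]; linarith
  have hlr : 0 ≤ Real.log (1 + r1) := Real.log_nonneg (by linarith)
  have hk0 : (0 : ℝ) ≤ k := Nat.cast_nonneg k
  obtain ⟨A, hA⟩ : ∃ A : ℝ, A = Real.log E + k * (1 + Real.log (1 + r1)) + 1 := ⟨_, rfl⟩
  have hApos : 0 < A := by rw [hA]; positivity
  obtain ⟨C, hC, hfac⟩ := hFAC (s + 1 / 20) r1 A (by linarith) (by rw [hr1]; linarith) hApos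
  refine ⟨C, hC, ?_⟩
  intro y₀
  obtain ⟨L, hL⟩ : ∃ L : ℝ, L = 1 + Real.log (1 + |y₀|) := ⟨_, rfl⟩
  have hy0 : 0 ≤ |y₀| := abs_nonneg _
  have hl0 : 0 ≤ Real.log (1 + |y₀|) := Real.log_nonneg (by linarith)
  have hL1 : 1 ≤ L := by rw [hL]; linarith
  obtain ⟨w, hw⟩ : ∃ w : ℂ, w = ⟨s, y₀⟩ := ⟨_, rfl⟩
  have hwre : w.re = s := by rw [hw]
  have hwim : w.im = y₀ := by rw [hw]
  have hre : ∀ z ∈ closedBall w r1, -(1 / 4) ≤ z.re := by
    intro z hz
    have h1 : |(z - w).re| ≤ ‖z - w‖ := Complex.abs_re_le_norm _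
    rw [mem_closedBall, dist_eq_norm] at hz
    rw [Complex.sub_re, hwre] at h1
    have h2 := (abs_le.1 (h1.trans hz)).1
    rw [hr1] at h2
    linarith
  have him : ∀ z ∈ closedBall w r1, |z.im| ≤ |y₀| + r1 := by
    intro z hz
    have h1 : |(z - w).im| ≤ ‖z - w‖ := Complex.abs_im_le_norm _
    rw [mem_closedBall, dist_eq_norm] at hz
    rw [Complex.sub_im, hwim] at h1
    have h2 : |z.im| ≤ |z.im - y₀| + |y₀| := by
      have := abs_add_le (z.im - y₀) y₀
      simpa using this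
    linarith [h1.trans hz]
  have hAL : Real.log E + k * (Real.log (1 + |y₀|) + Real.log (1 + r1)) ≤ A * L := by
    have h1 : Real.log E ≤ Real.log E * L := le_mul_of_one_le_right hlE hL1
    have h2 : Real.log (1 + r1) ≤ Real.log (1 + r1) * L := le_mul_of_one_le_right hlr hL1
    have h3 : Real.log (1 + |y₀|) ≤ L := by rw [hL]; linarith
    have h4 : k * (Real.log (1 + |y₀|) + Real.log (1 + r1)) ≤ k * (L + Real.log (1 + r1) * L) :=
      mul_le_mul_of_nonneg_left (by linarith) hk0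
    rw [hA]
    have h5 : (Real.log E + k * (1 + Real.log (1 + r1)) + 1) * L
        = Real.log E * L + k * (L + Real.log (1 + r1) * L) + L := by ring
    rw [h5]
    linarith
  obtain ⟨N, ζ, g, hN, _, _, hgb, hform⟩ := hfac w f L hL1
    (fun z hz => hf.an z (hre z hz))
    (by
      intro z hz
      refine (hf.grow z (hre z hz)).trans ?_
      have h1 : 1 + |z.im| ≤ (1 + |y₀|) * (1 + r1) := by
        have h := him z hz
        have h' : 0 ≤ |y₀| * r1 := mul_nonneg hy0 hr1p.le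
        have h'' : (1 + |y₀|) * (1 + r1) = 1 + |y₀| + r1 + |y₀| * r1 := by ring
        rw [h'']
        linarith
      have h2 : E * (1 + |z.im|) ^ k ≤ E * ((1 + |y₀|) * (1 + r1)) ^ k := by
        refine mul_le_mul_of_nonneg_left ?_ hE0.le
        exact pow_le_pow_left₀ (by positivity) h1 k
      refine h2.trans ?_
      have h3 : E * ((1 + |y₀|) * (1 + r1)) ^ k
          = Real.exp (Real.log E + k * (Real.log (1 + |y₀|) + Real.log (1 + r1))) := by
        rw [Real.exp_add, Real.exp_log hE0, Real.exp_nat_mul, Real.exp_add,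
          Real.exp_log (by linarith), Real.exp_log (by linarith)]
      rw [h3]
      exact Real.exp_le_exp.2 hAL)
    (by
      have h1 := hf.far w (by rw [hwre]; exact hsσ)
      have h2 : Real.exp (-(A * L)) ≤ Real.exp (-Real.log E) := by
        apply Real.exp_le_exp.2
        have h3 : 0 ≤ k * (Real.log (1 + |y₀|) + Real.log (1 + r1)) :=
          mul_nonneg hk0 (by linarith)
        linarith
      refine h2.trans ?_
      rw [Real.exp_neg, Real.exp_log hE0, inv_le_iff_one_le_mul₀ hE0, mul_comm]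
      exact h1)
  refine ⟨N, ζ, by rw [← hL]; exact hN, ?_⟩
  intro z hz0 hzσ hzim hfz
  have hzs : z.re ≤ s := hzσ.trans hsσ
  have hball : z ∈ closedBall w (s + 1 / 20) := by
    rw [mem_closedBall, dist_eq_norm]
    have h1 : ‖z - w‖ ^ 2 ≤ (s + 1 / 20) ^ 2 := by
      rw [← Complex.normSq_eq_norm_sq, Complex.normSq_apply, Complex.sub_re, Complex.sub_im,
        hwre, hwim]
      have h2 : (z.re - s) * (z.re - s) ≤ s * s := by nlinarith
      have h3 : (z.im - y₀) * (z.im - y₀) ≤ 1 := by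
        have := abs_le.1 hzim
        nlinarith
      nlinarith
    exact le_of_sq_le_sq h1 (by linarith)
  have hball' : z ∈ ball w ((s + 1 / 20 + r1) / 2) := by
    rw [mem_ball]
    rw [mem_closedBall] at hball
    rw [hr1]
    linarith
  have hf1 := hform z hball hfz
  have hg1 : -C ≤ (g z).re := by
    have h1 := (abs_le.1 ((Complex.abs_re_le_norm (g z)).trans (hgb z hball'))).1
    exact h1
  have hL0 : L ≠ 0 := by linarith
  have hf2 : Real.log ‖f z‖ = ∑ j, Real.log ‖z - ζ j‖ + L * (g z).re := by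
    have h1 : Real.log ‖f z‖ = Real.log ‖f z‖ / L * L := by field_simp
    rw [h1, hf1]
    field_simp
  rw [hf2, ← hL]
  have h4 : -(C * L) ≤ L * (g z).re := by
    have := mul_le_mul_of_nonneg_left hg1 (by linarith : (0 : ℝ) ≤ L)
    linarith
  linarith

end Pool.Agent.H65.ZQ
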